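import Pool.Agent.H5.OR.Targets

/-!
# Row AT of org_modules: the function which gives the sides of the base edge
-/

set_option autoImplicit false

open scoped Classical

namespace ORg

namespace H86AT

/-- right translation on the first coordinate -/
def rho (G : Type) [Group G] : G →* Equiv.Perm (G × Bool) where
  toFun y :=
    { toFun := fun p => (p.1 * y⁻¹, p.2)
      invFun := fun p => (p.1 * y, p.2)
      left_inv := fun p => by simp
      right_inv := fun p => by simp }
  map_one' := by
    apply Equiv.ext
    rintro ⟨x, s⟩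
    simp
  map_mul' y z := by
    apply Equiv.ext
    rintro ⟨x, s⟩
    simp [mul_assoc]

theorem rho_apply {G : Type} [Group G] (y : G) (p : G × Bool) :
    rho G y p = (p.1 * y⁻¹, p.2) := rfl

/-- exchange of the two colours over a subgroup -/
noncomputable def theta {G : Type} [Group G] (C : Subgroup G) : Equiv.Perm (G × Bool) where
  toFun p := (p.1, xor p.2 (decide (p.1 ∈ C)))
  invFun p := (p.1, xor p.2 (decide (p.1 ∈ C)))
  left_inv p := by
    rcases p with ⟨x, s⟩
    simp
  right_inv p := by
    rcases p with ⟨x, s⟩
    simp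

theorem theta_apply {G : Type} [Group G] (C : Subgroup G) (p : G × Bool) :
    theta C p = (p.1, xor p.2 (decide (p.1 ∈ C))) := rfl

theorem theta_inv_apply {G : Type} [Group G] (C : Subgroup G) (p : G × Bool) :
    (theta C)⁻¹ p = (p.1, xor p.2 (decide (p.1 ∈ C))) := rfl

theorem gen {H A B G : Type} [Group H] [Group A] [Group B] [Group G] {f : H →* A}
    {g : H →* B} {a : A →* G} {b : B →* G} (hpo : IsPO f g a b) : a.range ⊔ b.range = ⊤ := by
  set S : Subgroup G := a.range ⊔ b.range with hS
  have ha : ∀ x, a x ∈ S := fun x => (le_sup_left : a.range ≤ S) ⟨x, rfl⟩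
  have hb : ∀ x, b x ∈ S := fun x => (le_sup_right : b.range ≤ S) ⟨x, rfl⟩
  obtain ⟨k, hk1, hk2⟩ := hpo.lift S (a.codRestrict S ha) (b.codRestrict S hb) (by
    intro h
    apply Subtype.ext
    simpa using hpo.comm h)
  have hid := hpo.uniq G (S.subtype.comp k) (MonoidHom.id G) (by
    intro x
    simp [hk1]) (by
    intro x
    simp [hk2])
  rw [eq_top_iff]
  intro x _
  have := DFunLike.congr_fun hid x
  simp only [MonoidHom.comp_apply, MonoidHom.id_apply] at this
  rw [← this]
  exact (k x).2

end H86AT

open H86AT

theorem pf_AT : T_AT := by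
  intro H A B G _ _ _ _ f g a b hpo
  set C : Subgroup G := (a.comp f).range with hC
  obtain ⟨π, hπa, hπb⟩ := hpo.lift (Equiv.Perm (G × Bool)) ((rho G).comp a)
    ((MulAut.conj (theta C)).toMonoidHom.comp ((rho G).comp b)) (by
      intro h
      apply Equiv.ext
      rintro ⟨x, s⟩
      have hc : b (g h) = a (f h) := (hpo.comm h).symm
      have hmem : a (f h) ∈ C := ⟨h, rfl⟩
      have hiff : x * (a (f h))⁻¹ ∈ C ↔ x ∈ C := by
        constructor
        · intro hx
          have := C.mul_mem hx hmem
          simpa using this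
        · intro hx
          exact C.mul_mem hx (C.inv_mem hmem)
      simp only [MonoidHom.comp_apply, MulEquiv.coe_toMonoidHom, MulAut.conj_apply,
        Equiv.Perm.mul_apply, rho_apply, theta_apply, theta_inv_apply, hc, hiff]
      simp)
  have hfst : ∀ y : G, ∀ p : G × Bool, (π y p).1 = p.1 * y⁻¹ := by
    let S : Subgroup G :=
      { carrier := {y | ∀ p : G × Bool, (π y p).1 = p.1 * y⁻¹}
        one_mem' := by
          intro p
          simp
        mul_mem' := by
          intro y z hy hz p
          rw [map_mul, Equiv.Perm.mul_apply, hy, hz, mul_inv_rev, mul_assoc]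
        inv_mem' := by
          intro y hy p
          have h1 := hy (π y⁻¹ p)
          have h2 : π y (π y⁻¹ p) = p := by
            rw [← Equiv.Perm.mul_apply, ← map_mul, mul_inv_cancel, map_one,
              Equiv.Perm.one_apply]
          rw [h2] at h1
          rw [h1]
          simp }
    have hS : S = ⊤ := by
      rw [eq_top_iff, ← gen hpo, sup_le_iff]
      constructor
      · rintro _ ⟨x, rfl⟩
        intro p
        rw [hπa]
        rfl
      · rintro _ ⟨x, rfl⟩
        intro p
        rw [hπb]
        rfl
    intro y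
    have : y ∈ S := by rw [hS]; exact Subgroup.mem_top y
    exact this
  refine ⟨fun x => (π x⁻¹ (1, true)).2, ?_, ?_, ?_⟩
  · simp
  · intro x y
    change (π (x * a y)⁻¹ (1, true)).2 = _
    rw [mul_inv_rev, map_mul, Equiv.Perm.mul_apply, ← map_inv, hπa]
    rfl
  · intro x y
    change xor ((π (x * b y)⁻¹ (1, true)).2) _ = xor ((π x⁻¹ (1, true)).2) _
    have h1 : (π x⁻¹ (1, true)).1 = x := by
      rw [hfst]
      simp
    rw [mul_inv_rev, map_mul, Equiv.Perm.mul_apply, ← map_inv, hπb]
    generalize π x⁻¹ (1, true) = q at h1 ⊢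
    obtain ⟨q1, q2⟩ := q
    simp only at h1
    subst h1
    change xor (theta C (rho G (b y⁻¹) ((theta C)⁻¹ (q1, q2)))).2 _ = _
    rw [theta_inv_apply, rho_apply, theta_apply, map_inv, inv_inv]
    simp only
    generalize decide (q1 * b y ∈ C) = e1
    generalize decide (q1 ∈ C) = e2
    cases e1 <;> cases e2 <;> cases q2 <;> rfl

end ORg
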