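import Pool.Agent.H5.OR.Targets

/-!
# Row AV of org_modules: the tree of an amalgamated product, from the function `τ`
-/

set_option autoImplicit false

open scoped Classical

namespace ORg

namespace H86AV

variable {G : Type} [Group G] (A B C : Subgroup G)

/-- the vertices -/
abbrev VV : Type := (G ⧸ A) ⊕ (G ⧸ B)

/-- the red vertices -/
def vr (g : G) : VV A B := Sum.inl (QuotientGroup.mk g)

/-- the blue vertices -/
def vb (g : G) : VV A B := Sum.inr (QuotientGroup.mk g)

/-- the graph -/
def Gr : SimpleGraph (VV A B) where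
  Adj u v := ∃ g : G, (u = vr A B g ∧ v = vb A B g) ∨ (u = vb A B g ∧ v = vr A B g)
  symm := by
    constructor
    rintro u v ⟨g, h⟩
    exact ⟨g, h.symm.imp (fun h => ⟨h.2, h.1⟩) (fun h => ⟨h.2, h.1⟩)⟩
  loopless := by
    constructor
    rintro u ⟨g, ⟨h1, h2⟩ | ⟨h1, h2⟩⟩
    · rw [h1] at h2
      exact absurd h2 (by simp [vr, vb])
    · rw [h1] at h2
      exact absurd h2 (by simp [vr, vb])

theorem vr_eq (g h : G) : vr A B g = vr A B h ↔ g⁻¹ * h ∈ A := by
  unfold vr
  rw [Sum.inl.injEq]
  exact QuotientGroup.eq

theorem vb_eq (g h : G) : vb A B g = vb A B h ↔ g⁻¹ * h ∈ B := by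
  unfold vb
  rw [Sum.inr.injEq]
  exact QuotientGroup.eq

theorem smul_vr (g h : G) : g • vr A B h = vr A B (g * h) := rfl

theorem smul_vb (g h : G) : g • vb A B h = vb A B (g * h) := rfl

theorem adj_base (g : G) : (Gr A B).Adj (vr A B g) (vb A B g) := ⟨g, Or.inl ⟨rfl, rfl⟩⟩

variable {A B}

theorem conn (hgen : A ⊔ B = ⊤) : (Gr A B).Connected := by
  have h1 : ∀ g : G, (Gr A B).Reachable (vr A B 1) (vr A B g) := by
    have key : ∀ g ∈ Subgroup.closure ((A : Set G) ∪ B), ∀ x : G,
        (Gr A B).Reachable (vr A B x) (vr A B (x * g)) := by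
      intro g hg
      induction hg using Subgroup.closure_induction with
      | mem g hg =>
        intro x
        rcases hg with hg | hg
        · have : vr A B x = vr A B (x * g) := by
            rw [vr_eq]
            simpa using hg
          rw [← this]
        · have : vb A B x = vb A B (x * g) := by
            rw [vb_eq]
            simpa using hg
          refine ((adj_base A B x).reachable).trans ?_
          rw [this]
          exact ((adj_base A B (x * g)).symm.reachable)
      | one => intro x; rw [mul_one]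
      | mul g h _ _ ih1 ih2 =>
        intro x
        rw [← mul_assoc]
        exact (ih1 x).trans (ih2 (x * g))
      | inv g _ ih =>
        intro x
        have := (ih (x * g⁻¹)).symm
        rwa [inv_mul_cancel_right] at this
    intro g
    have hg : g ∈ Subgroup.closure ((A : Set G) ∪ B) := by
      rw [Subgroup.closure_union, Subgroup.closure_eq, Subgroup.closure_eq, hgen]
      exact Subgroup.mem_top g
    have := key g hg 1
    rwa [one_mul] at this
  have h2 : ∀ v, (Gr A B).Reachable (vr A B 1) v := by
    rintro (v | v)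
    · induction v using QuotientGroup.induction_on with
      | H g => exact h1 g
    · induction v using QuotientGroup.induction_on with
      | H g => exact (h1 g).trans (adj_base A B g).reachable
  have : Nonempty (VV A B) := ⟨vr A B 1⟩
  exact ⟨fun u v => (h2 u).symm.trans (h2 v)⟩

end H86AV

open H86AV

theorem pf_AV : T_AV := by
  intro G _ A B C τ hgen hCA hCB h1 hA hB
  refine ⟨?_, ?_⟩
  · apply le_antisymm
    · intro x hx
      have e1 := hA 1 x hx.1
      have e2 := hB 1 x hx.2
      rw [one_mul] at e1 e2
      rw [e1, h1] at e2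
      have h1C : (1 : G) ∈ C := C.one_mem
      simpa [h1C] using e2
    · exact le_inf hCA hCB
  · -- the sides
    have hsA : ∀ g h : G, (QuotientGroup.leftRel A) g h → τ g = τ h := by
      intro g h hgh
      have hm : g⁻¹ * h ∈ A := QuotientGroup.leftRel_apply.1 hgh
      have := hA g _ hm
      rw [mul_inv_cancel_left] at this
      exact this.symm
    have hsB : ∀ g h : G, (QuotientGroup.leftRel B) g h →
        xor (τ g) (decide (g ∈ C)) = xor (τ h) (decide (h ∈ C)) := by
      intro g h hgh
      have hm : g⁻¹ * h ∈ B := QuotientGroup.leftRel_apply.1 hgh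
      have := hB g _ hm
      rw [mul_inv_cancel_left] at this
      exact this.symm
    let s : VV A B → Bool := Sum.elim (Quotient.lift τ hsA)
      (Quotient.lift (fun g => xor (τ g) (decide (g ∈ C))) hsB)
    have hsr : ∀ g, s (vr A B g) = τ g := fun g => rfl
    have hsb : ∀ g, s (vb A B g) = xor (τ g) (decide (g ∈ C)) := fun g => rfl
    have hne : ∀ g, s (vr A B g) ≠ s (vb A B g) → g ∈ C := by
      intro g hg
      rw [hsr, hsb] at hg
      by_contra hC
      apply hg
      simp [hC]
    have hbr : ∀ h : G, (Gr A B).IsBridge s(vr A B h, vb A B h) := by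
      intro h
      rw [SimpleGraph.isBridge_iff]
      rintro ⟨p⟩
      have hconst : ∀ u v, ((Gr A B).deleteEdges {s(vr A B h, vb A B h)}).Adj u v →
          s (h⁻¹ • u) = s (h⁻¹ • v) := by
        intro u v huv
        rw [SimpleGraph.deleteEdges_adj] at huv
        obtain ⟨⟨g, hg⟩, hn⟩ := huv
        by_contra hcon
        apply hn
        have hgC : h⁻¹ * g ∈ C := by
          rcases hg with ⟨rfl, rfl⟩ | ⟨rfl, rfl⟩
          · rw [smul_vr, smul_vb] at hcon
            exact hne _ hcon
          · rw [smul_vr, smul_vb] at hcon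
            exact hne _ (Ne.symm hcon)
        have e1 : vr A B h = vr A B g := (vr_eq A B h g).2 (hCA hgC)
        have e2 : vb A B h = vb A B g := (vb_eq A B h g).2 (hCB hgC)
        rcases hg with ⟨rfl, rfl⟩ | ⟨rfl, rfl⟩
        · rw [← e1, ← e2]; rfl
        · rw [← e1, ← e2]
          exact Sym2.eq_swap
      have hwalk : ∀ u v, ((Gr A B).deleteEdges {s(vr A B h, vb A B h)}).Walk u v →
          s (h⁻¹ • u) = s (h⁻¹ • v) := by
        intro u v q
        induction q with
        | nil => rfl
        | cons h' _ ih => exact (hconst _ _ h').trans ih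
      have := hwalk _ _ p
      rw [smul_vr, smul_vb, inv_mul_cancel, hsr, hsb, h1] at this
      simp [C.one_mem] at this
    have htree : (Gr A B).IsTree := by
      refine ⟨conn hgen, ?_⟩
      rw [SimpleGraph.isAcyclic_iff_forall_adj_isBridge]
      rintro u v ⟨g, ⟨rfl, rfl⟩ | ⟨rfl, rfl⟩⟩
      · exact hbr g
      · rw [Sym2.eq_swap]
        exact hbr g
    let S : GTree G :=
      { V := VV A B
        T := Gr A B
        tree := htree
        adj := by
          rintro x u v ⟨g, ⟨rfl, rfl⟩ | ⟨rfl, rfl⟩⟩
          · exact ⟨x * g, Or.inl ⟨rfl, rfl⟩⟩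
          · exact ⟨x * g, Or.inr ⟨rfl, rfl⟩⟩
        red := fun v => v.isLeft = true
        red_smul := by
          rintro g (v | v)
          · exact Iff.rfl
          · exact Iff.rfl
        red_adj := by
          rintro u v ⟨g, ⟨rfl, rfl⟩ | ⟨rfl, rfl⟩⟩
          · simp [vr, vb]
          · simp [vr, vb] }
    refine ⟨S, vr A B 1, vb A B 1, ?_⟩
    refine ⟨rfl, adj_base A B 1, ?_, ?_, ?_⟩
    · intro g
      change g • vr A B 1 = vr A B 1 ↔ _
      rw [smul_vr, vr_eq]
      simp
    · intro g
      change g • vb A B 1 = vb A B 1 ↔ _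
      rw [smul_vb, vb_eq]
      simp
    · rintro u v hu ⟨g, ⟨rfl, rfl⟩ | ⟨rfl, rfl⟩⟩
      · refine ⟨g, ?_, ?_⟩
        · change vr A B g = g • vr A B 1
          rw [smul_vr, mul_one]
        · change vb A B g = g • vb A B 1
          rw [smul_vb, mul_one]
      · exact absurd hu (by change ¬ ((vb A B g).isLeft = true); simp [vb])

end ORg
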