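import Pool.Agent.H5.OR.Targets

/-!
# Row WG of org_modules: the Whitehead graph of a word of minimal length
-/

set_option autoImplicit false

open scoped Classical

namespace ORg

namespace H86WG

variable {X : Type}

theorem nv_nv (x : X × Bool) : nv (nv x) = x := by
  rcases x with ⟨a, b⟩
  simp [nv]

theorem nv_inj {x y : X × Bool} (h : nv x = nv y) : x = y := by
  rw [← nv_nv x, h, nv_nv]

theorem nv_ne (x : X × Bool) : nv x ≠ x := by
  rcases x with ⟨a, b⟩
  intro h
  have := congrArg Prod.snd h
  revert this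
  cases b <;> simp [nv]

theorem fst_eq {x y : X × Bool} (h : x.1 = y.1) : x = y ∨ x = nv y := by
  rcases x with ⟨a, b⟩
  rcases y with ⟨c, d⟩
  simp only at h
  subst h
  cases b <;> cases d <;> simp [nv]

/-- reduction of an index modulo the length -/
theorem red_ix {L : ℕ} {lt : ℤ → X × Bool} (hp : 0 < L) (hl : ∀ i, lt (i + L) = lt i) (i : ℤ) :
    ∃ j : ℕ, j < L ∧ lt j = lt i ∧ lt ((j : ℤ) + 1) = lt (i + 1) := by
  have hper : Function.Periodic lt (L : ℤ) := hl
  have hk : ∀ (k : ℤ) (m : ℤ), lt (m + k * L) = lt m := fun k m => (hper.int_mul k) m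
  have hL0 : (L : ℤ) ≠ 0 := by exact_mod_cast hp.ne'
  have h0 : 0 ≤ i % (L : ℤ) := Int.emod_nonneg _ hL0
  have h1 : i % (L : ℤ) < L := Int.emod_lt_of_pos _ (by exact_mod_cast hp)
  refine ⟨(i % (L : ℤ)).toNat, by omega, ?_, ?_⟩
  · rw [Int.toNat_of_nonneg h0]
    have := hk (i / L) (i % L)
    rw [← this]
    congr 1
    have := Int.emod_add_mul_ediv i (L : ℤ)
    linarith
  · rw [Int.toNat_of_nonneg h0]
    have := hk (i / L) (i % L + 1)
    rw [← this]
    congr 1
    have := Int.emod_add_mul_ediv i (L : ℤ)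
    linarith

/-- the count over a range of integers -/
theorem card_do (L : ℕ) (P : ℤ → Prop) [i1 : DecidablePred P]
    [i2 : DecidablePred (fun i : ℕ => P (i : ℤ))] :
    (Finset.filter P (do let a ← Finset.range L; pure (a : ℤ))).card =
      ((Finset.range L).filter (fun i : ℕ => P (i : ℤ))).card := by
  have h : Finset.filter P (do let a ← Finset.range L; pure (a : ℤ)) =
      ((Finset.range L).filter (fun i : ℕ => P (i : ℤ))).map
        ⟨(fun n : ℕ => (n : ℤ)), Nat.cast_injective⟩ := by
    ext t
    simp only [Finset.bind_def, Finset.pure_def, Finset.mem_filter, Finset.mem_sup,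
      Finset.mem_range, Finset.mem_singleton, Finset.mem_map, Function.Embedding.coeFn_mk]
    constructor
    · rintro ⟨⟨a, ha, rfl⟩, hb⟩
      exact ⟨a, ⟨ha, hb⟩, rfl⟩
    · rintro ⟨a, ⟨ha, hb⟩, rfl⟩
      exact ⟨⟨a, ha, rfl⟩, hb⟩
  rw [h, Finset.card_map]

theorem cut_iff (L : ℕ) (lt : ℤ → X × Bool) (A : Set (X × Bool)) (x : X × Bool) :
    Cut L lt A x ↔ ((Finset.range L).filter (fun i : ℕ => lt i = x ∨ lt i = nv x)).card ≤
      ((Finset.range L).filter
        (fun i : ℕ => ¬ (nv (lt i) ∈ A ↔ lt ((i : ℤ) + 1) ∈ A))).card := by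
  unfold Cut
  rw [card_do L (fun i => lt i = x ∨ lt i = nv x),
    card_do L (fun i => ¬ (nv (lt i) ∈ A ↔ lt (i + 1) ∈ A))]

/-- shift of the index in a count -/
theorem shift {L : ℕ} {lt : ℤ → X × Bool} (hl : ∀ i, lt (i + L) = lt i) (z : X × Bool) :
    ((Finset.range L).filter (fun i : ℕ => lt i = z)).card =
      ((Finset.range L).filter (fun i : ℕ => lt ((i : ℤ) + 1) = z)).card := by
  rw [Finset.card_filter, Finset.card_filter]
  have h1 := Finset.sum_range_succ (fun i : ℕ => if lt (i : ℤ) = z then 1 else 0) L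
  have h2 := Finset.sum_range_succ' (fun i : ℕ => if lt (i : ℤ) = z then 1 else 0) L
  have h3 : lt ((L : ℕ) : ℤ) = lt ((0 : ℕ) : ℤ) := by
    have := hl 0
    simpa using this
  rw [h1] at h2
  rw [h3] at h2
  have h4 : ∀ i : ℕ, lt ((i + 1 : ℕ) : ℤ) = lt ((i : ℤ) + 1) := by
    intro i; push_cast; rfl
  simp only [h4] at h2
  omega

end H86WG

open H86WG

theorem pf_WG : T_WG := by
  intro X _ w L lt u hL hcut hocc z x y hx hy
  by_contra hxy
  set R : X × Bool → X × Bool → Prop := fun s t : X × Bool => s ≠ z ∧ t ≠ z ∧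
    ∃ i, (s = nv (lt (i - 1)) ∧ t = lt i) ∨ (t = nv (lt (i - 1)) ∧ s = lt i) with hR
  have hsym : ∀ s t, R s t → R t s := by
    rintro s t ⟨h1, h2, i, h3⟩
    exact ⟨h2, h1, i, h3.symm⟩
  have hsymT : ∀ s t, Relation.ReflTransGen R s t → Relation.ReflTransGen R t s := by
    intro s t h
    induction h with
    | refl => exact Relation.ReflTransGen.refl
    | tail _ h2 ih => exact Relation.ReflTransGen.head (hsym _ _ h2) ih
  have hne : ∀ s t, s ≠ z → Relation.ReflTransGen R s t → t ≠ z := by
    intro s t hs h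
    rcases Relation.ReflTransGen.cases_tail h with h | ⟨c, -, hc⟩
    · rw [h]; exact hs
    · exact hc.2.1
  -- the component
  obtain ⟨A, ⟨p, hp⟩, hzA, hnz, hcl, y', hy'z, hy'A⟩ : ∃ A : Set (X × Bool), (∃ p, p ∈ A) ∧
      z ∉ A ∧ nv z ∉ A ∧ (∀ s ∈ A, ∀ t, R s t → t ∈ A) ∧ ∃ y', y' ≠ z ∧ y' ∉ A := by
    by_cases hc : Relation.ReflTransGen R x (nv z)
    · refine ⟨{t | Relation.ReflTransGen R y t}, ⟨y, Relation.ReflTransGen.refl⟩, ?_, ?_, ?_,
        x, hx, ?_⟩
      · intro h
        exact hne y z hy h rfl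
      · intro h
        exact hxy (hc.trans (hsymT _ _ h))
      · intro s hs t hst
        exact Relation.ReflTransGen.tail hs hst
      · intro h
        exact hxy (hsymT _ _ h)
    · refine ⟨{t | Relation.ReflTransGen R x t}, ⟨x, Relation.ReflTransGen.refl⟩, ?_, hc, ?_,
        y, hy, hxy⟩
      · intro h
        exact hne x z hx h rfl
      · intro s hs t hst
        exact Relation.ReflTransGen.tail hs hst
  -- the edges which meet `A`
  have he1 : ∀ i, nv (lt i) ∈ A → lt (i + 1) ∈ A ∨ lt (i + 1) = z := by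
    intro i hi
    by_cases hz : lt (i + 1) = z
    · exact Or.inr hz
    · left
      refine hcl _ hi _ ⟨?_, hz, i + 1, Or.inl ⟨by rw [add_sub_cancel_right], rfl⟩⟩
      intro h
      rw [h] at hi
      exact hzA hi
  have he2 : ∀ i, lt (i + 1) ∈ A → nv (lt i) ∈ A ∨ nv (lt i) = z := by
    intro i hi
    by_cases hz : nv (lt i) = z
    · exact Or.inr hz
    · left
      refine hcl _ hi _ ⟨?_, hz, i + 1, Or.inr ⟨by rw [add_sub_cancel_right], rfl⟩⟩
      intro h
      rw [h] at hi
      exact hzA hi
  by_cases hcase : ∃ i : ℤ, (nv (lt i) = z ∧ lt (i + 1) ∈ A) ∨ (nv (lt i) ∈ A ∧ lt (i + 1) = z)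
  · obtain ⟨i0, hi0⟩ := hcase
    obtain ⟨j, hjL, hj1, hj2⟩ := red_ix hL.pos hL.lper i0
    have hc := hcut (insert z A) z (Set.mem_insert _ _) (by
      intro h
      rcases h with h | h
      · exact nv_ne z h
      · exact hnz h)
    rw [cut_iff] at hc
    -- the degree
    have hdeg : ((Finset.range L).filter (fun i : ℕ => lt i = z ∨ lt i = nv z)).card =
        ((Finset.range L).filter (fun i : ℕ => nv (lt i) = z ∨ lt ((i : ℤ) + 1) = z)).card := by
      rw [Finset.filter_or, Finset.filter_or, Finset.card_union_of_disjoint,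
        Finset.card_union_of_disjoint, ← shift hL.lper z, add_comm]
      · congr 2
        apply Finset.filter_congr
        intro i _
        constructor
        · intro h; rw [h, nv_nv]
        · intro h; rw [← h, nv_nv]
      · rw [Finset.disjoint_filter]
        intro i _ h1 h2
        exact hL.red i (h2.trans h1.symm)
      · rw [Finset.disjoint_filter]
        intro i _ h1 h2
        exact nv_ne z (h2.symm.trans h1)
    rw [hdeg] at hc
    have hlt : ((Finset.range L).filter (fun i : ℕ => ¬ (nv (lt i) ∈ insert z A ↔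
        lt ((i : ℤ) + 1) ∈ insert z A))).card <
        ((Finset.range L).filter (fun i : ℕ => nv (lt i) = z ∨ lt ((i : ℤ) + 1) = z)).card := by
      apply Finset.card_lt_card
      rw [Finset.ssubset_iff_of_subset]
      · refine ⟨j, ?_, ?_⟩
        · rw [Finset.mem_filter, Finset.mem_range]
          refine ⟨hjL, ?_⟩
          rw [hj1, hj2]
          rcases hi0 with ⟨h1, h2⟩ | ⟨h1, h2⟩
          · exact Or.inl h1
          · exact Or.inr h2
        · rw [Finset.mem_filter]
          rintro ⟨-, h⟩
          apply h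
          rw [hj1, hj2]
          rcases hi0 with ⟨h1, h2⟩ | ⟨h1, h2⟩
          · exact ⟨fun _ => Or.inr h2, fun _ => Or.inl h1⟩
          · exact ⟨fun _ => Or.inl h2, fun _ => Or.inr h1⟩
      · intro i hi
        rw [Finset.mem_filter] at hi ⊢
        refine ⟨hi.1, ?_⟩
        by_contra hcon
        push Not at hcon
        apply hi.2
        constructor
        · intro h
          rcases h with h | h
          · exact absurd h hcon.1
          · rcases he1 i h with h' | h'
            · exact Or.inr h'
            · exact Or.inl h'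
        · intro h
          rcases h with h | h
          · exact absurd h hcon.2
          · rcases he2 i h with h' | h'
            · exact Or.inr h'
            · exact Or.inl h'
    refine absurd hc (Nat.not_le.2 ?_)
    convert hlt
  · push Not at hcase
    have hf1 : ∀ i, nv (lt i) ∈ A → lt (i + 1) ∈ A := by
      intro i hi
      rcases he1 i hi with h | h
      · exact h
      · exact absurd h ((hcase i).2 hi)
    have hf2 : ∀ i, lt (i + 1) ∈ A → nv (lt i) ∈ A := by
      intro i hi
      rcases he2 i hi with h | h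
      · exact h
      · exact absurd hi ((hcase i).1 h)
    by_cases hnv : ∃ q ∈ A, nv q ∉ A
    · obtain ⟨q, hq, hnq⟩ := hnv
      have hc := hcut A q hq hnq
      rw [cut_iff] at hc
      have h0 : ((Finset.range L).filter (fun i : ℕ => ¬ (nv (lt i) ∈ A ↔
          lt ((i : ℤ) + 1) ∈ A))).card = 0 := by
        rw [Finset.card_eq_zero, Finset.filter_eq_empty_iff]
        intro i _
        rw [not_not]
        exact ⟨hf1 i, hf2 i⟩
      rw [h0] at hc
      obtain ⟨i, hi⟩ := hocc q.1
      obtain ⟨j, hjL, hj1, -⟩ := red_ix hL.pos hL.lper i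
      have hmem : j ∈ (Finset.range L).filter (fun i : ℕ => lt i = q ∨ lt i = nv q) := by
        rw [Finset.mem_filter, Finset.mem_range]
        refine ⟨hjL, ?_⟩
        rw [hj1]
        exact fst_eq hi
      have := Finset.card_pos.2 ⟨j, hmem⟩
      omega
    · push Not at hnv
      obtain ⟨i, hi⟩ := hocc p.1
      have hi' : lt i ∈ A := by
        rcases fst_eq hi with h | h
        · rw [h]; exact hp
        · rw [h]; exact hnv p hp
      have hup : ∀ k, lt k ∈ A → lt (k + 1) ∈ A := fun k hk => hf1 k (hnv _ hk)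
      have hdn : ∀ k, lt (k + 1) ∈ A → lt k ∈ A := by
        intro k hk
        have := hnv _ (hf2 k hk)
        rwa [nv_nv] at this
      have hall : ∀ k : ℤ, lt k ∈ A := by
        intro k
        induction k using Int.inductionOn' (b := i) with
        | zero => exact hi'
        | succ k _ ih => exact hup k ih
        | pred k _ ih =>
          apply hdn
          rwa [sub_add_cancel]
      obtain ⟨j, hj⟩ := hocc y'.1
      rcases fst_eq hj with h | h
      · exact hy'A (h ▸ hall j)
      · apply hy'A
        have := hnv _ (hall j)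
        rwa [h, nv_nv] at this

end ORg
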